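import Pool.Agent.helper97.IRO.Spec

set_option autoImplicit false

/-! Row iro:T7b. -/

open MeasureTheory Pool.Agent.LOF

namespace Pool.Agent.IRO

/-- the subgroup of the elements with trivial germs at the ends -/
def T7b_K (hG2 : G2_stmt) : Subgroup F where
  carrier := {g | gR g.1 0 0 ∧ gL g.1 1 0}
  one_mem' := by
    refine ⟨⟨1, by norm_num, fun z _ _ => ?_⟩, ⟨0, by norm_num, fun z _ _ => ?_⟩⟩
    · show z = _
      simp
    · show z = _
      simp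
  mul_mem' := by
    intro g h hg hh
    have h1 := (hG2 g.1 h.1 0 0 0).2.2.1 hg.1 hh.1
    have h2 := (hG2 g.1 h.1 1 0 0).1 hg.2 hh.2
    exact ⟨h1, h2⟩
  inv_mem' := by
    intro g hg
    have h1 := (hG2 g.1 g.1 0 0 0).2.2.2 hg.1
    have h2 := (hG2 g.1 g.1 1 0 0).2.1 hg.2
    exact ⟨h1, h2⟩

theorem T7b_at0 (g : F) : g.1 0 = 0 := F.out g.2 (by simp)

theorem T7b_at1 (g : F) : g.1 1 = 1 := F.out g.2 (by simp)

theorem T7b_comm (hG1 : G1_stmt) (hG2 : G2_stmt) {h : F} (hh : h ∈ commutator F) :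
    gR h.1 0 0 ∧ gL h.1 1 0 := by
  have hle : commutator F ≤ T7b_K hG2 := by
    rw [commutator_def]
    refine Subgroup.commutator_le.mpr ?_
    intro g _ f _
    obtain ⟨k, hk, -⟩ := (hG1 g 0 (T7b_at0 g)).2
    obtain ⟨l, hl, -⟩ := (hG1 f 0 (T7b_at0 f)).2
    obtain ⟨k', hk', -⟩ := (hG1 g 1 (T7b_at1 g)).1
    obtain ⟨l', hl', -⟩ := (hG1 f 1 (T7b_at1 f)).1
    have a1 := (hG2 g.1 f.1 0 k l).2.2.1 hk hl
    have a2 := (hG2 g.1 g.1 0 k 0).2.2.2 hk
    have a3 := (hG2 f.1 f.1 0 l 0).2.2.2 hl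
    have a4 := (hG2 (g.1 * f.1) g.1⁻¹ 0 (k + l) (-k)).2.2.1 a1 a2
    have a5 := (hG2 (g.1 * f.1 * g.1⁻¹) f.1⁻¹ 0 (k + l + -k) (-l)).2.2.1 a4 a3
    have b1 := (hG2 g.1 f.1 1 k' l').1 hk' hl'
    have b2 := (hG2 g.1 g.1 1 k' 0).2.1 hk'
    have b3 := (hG2 f.1 f.1 1 l' 0).2.1 hl'
    have b4 := (hG2 (g.1 * f.1) g.1⁻¹ 1 (k' + l') (-k')).1 b1 b2
    have b5 := (hG2 (g.1 * f.1 * g.1⁻¹) f.1⁻¹ 1 (k' + l' + -k') (-l')).1 b4 b3
    rw [show k + l + -k + -l = 0 by ring] at a5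
    rw [show k' + l' + -k' + -l' = 0 by ring] at b5
    exact ⟨a5, b5⟩
  exact hle hh

/-- elements with trivial germs at both ends have compact support in `(0,1)` -/
theorem T7b_supp (hG3 : G3_stmt) {h : F} (h0 : gR h.1 0 0) (h1 : gL h.1 1 0) :
    ∃ a b : ℝ, Dyi a b ∧ h ∈ FI a b := by
  have hm : h ∈ FI 0 1 := by rw [FI_top]; trivial
  obtain ⟨b, hb0, hb1, hbd, hb⟩ := (hG3 0 1 h one_pos hm).1 h1
  obtain ⟨a, ha0, hab, had, ha⟩ := (hG3 0 b h hb0 hb).2 h0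
  exact ⟨a, b, ⟨had, hbd, ha0, hab, hb1⟩, ha⟩

theorem T7b_dy {x : ℝ} (hx : x < 1) : ∃ b : ℝ, IsDyadic b ∧ x < b ∧ b < 1 := by
  obtain ⟨m, hm⟩ := exists_pow_lt_of_lt_one (show (0 : ℝ) < 1 - x by linarith)
    (show (1 / 2 : ℝ) < 1 by norm_num)
  have h0 : (0 : ℝ) < (1 / 2) ^ m := by positivity
  refine ⟨1 - (1 / 2) ^ m, ?_, by linarith, by linarith⟩
  have h1 := (IsDyadic.int 1).sub (⟨1, m, rfl⟩ : IsDyadic (((1 : ℤ) : ℝ) / 2 ^ m))
  have h2 : (1 : ℝ) - (1 / 2) ^ m = ((1 : ℤ) : ℝ) - ((1 : ℤ) : ℝ) / 2 ^ m := by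
    push_cast
    rw [one_div, inv_pow, one_div]
  rw [h2]
  exact h1

theorem T7b_part1 (hT5 : T5_stmt) (hT6 : T6_stmt) (hT2 : T2_stmt) (hCT7 : CT7_stmt)
    (hG1 : G1_stmt) (hG2 : G2_stmt) (hG3 : G3_stmt) (hGE7 : GE7_stmt)
    (P : F → Prop) (hP : Cone P) (hC : Conr P) (hA : ∀ a b, Dyi a b → ¬ Aty P a b)
    (hB : ∀ b, IsDyadic b → 0 < b → b < 1 → ¬ Bty P 0 b) (g h : F)
    (hg : g ∉ commutator F) (hh : h ∈ commutator F) : P (g * h) ↔ P g := by
  obtain ⟨h0, h1⟩ := T7b_comm hG1 hG2 hh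
  obtain ⟨a', b', hab', hhm⟩ := T7b_supp hG3 h0 h1
  obtain ⟨k, hk, -⟩ := (hG1 g 1 (T7b_at1 g)).1
  obtain ⟨l, hl, -⟩ := (hG1 g 0 (T7b_at0 g)).2
  by_cases hk0 : k = 0
  · subst hk0
    have hl0 : l ≠ 0 := by
      rintro rfl
      exact hg (hGE7.2 g hl hk)
    have hm : g ∈ FI 0 1 := by rw [FI_top]; trivial
    obtain ⟨b1, hb10, hb11, hb1d, hgb1⟩ := (hG3 0 1 g one_pos hm).1 hk
    obtain ⟨b, hbd, hb1, hb2⟩ := T7b_dy (show max b1 b' < 1 from max_lt hb11 hab'.2.2.2.2)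
    have hb1' : b1 < b := lt_of_le_of_lt (le_max_left _ _) hb1
    have hb' : b' < b := lt_of_le_of_lt (le_max_right _ _) hb1
    have hb0 : 0 < b := hb10.trans hb1'
    have hdy : Dy 0 b := ⟨by simpa using IsDyadic.int 0, hbd, le_rfl, hb0, hb2.le⟩
    have hgm : g ∈ FI 0 b := FI_mono le_rfl hb1'.le hgb1
    have hhm' : h ∈ FI 0 b := FI_mono hab'.2.2.1.le hb'.le hhm
    have hcof : Cof P (FI 0 b) g := (hT5 P hP hC 0 b g l hdy hgm hl0).2 (hB b hbd hb0 hb2) hl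
    have hncof : ¬ Cof P (FI 0 b) h := by
      refine hT2 P hP hC 0 b h hdy hhm' h0 ⟨b', hb', fun z hz1 hz2 => ?_⟩
      rw [hhm z (fun hz => absurd hz.2 (not_lt.2 hz1.le))]
      simp
    have hncof' : ¬ Cof P (FI 0 b) h⁻¹ := fun hc => hncof (by
      have := hc.inv
      rwa [inv_inv] at this)
    constructor
    · intro hgh
      by_contra hng
      rcases hP.tri g (Cof.ne_one hP hcof) with h2 | h2
      · exact hng h2
      · have h3 := (hCT7 F P hP hC (FI 0 b) h⁻¹ g⁻¹ ((FI 0 b).inv_mem hhm') hncof' hcof.inv h2).2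
        refine hP.anti _ hgh ?_
        rwa [mul_inv_rev]
    · intro h2
      exact (hCT7 F P hP hC (FI 0 b) h g hhm' hncof hcof h2).1
  · obtain ⟨e, he, hez⟩ := hk
    obtain ⟨b, hbd, hb1, hb2⟩ := T7b_dy (show max e b' < 1 from max_lt he hab'.2.2.2.2)
    have hb1' : e < b := lt_of_le_of_lt (le_max_left _ _) hb1
    have hb' : b' < b := lt_of_le_of_lt (le_max_right _ _) hb1
    refine hT6 P hP hC hA a' b g h ⟨hab'.1, hbd, hab'.2.2.1, hab'.2.2.2.1.trans hb', hb2⟩ ?_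
      (FI_mono le_rfl hb'.le hhm)
    rw [hez b hb1' hb2.le]
    intro heq
    have h3 : ((2 : ℝ) ^ k - 1) * (b - 1) = 0 := by linear_combination heq
    rcases mul_eq_zero.mp h3 with h4 | h4
    · apply hk0
      have h5 : (2 : ℝ) ^ k = 2 ^ (0 : ℤ) := by rw [zpow_zero]; linarith
      exact zpow_right_injective₀ (by norm_num) (by norm_num) h5
    · linarith

theorem T7b_down {g : ℝ ≃o ℝ} {y : ℝ} {k : ℤ} (hk : 0 < k) (h : gL g y k) : Down g y := by
  obtain ⟨e, he, hz⟩ := h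
  refine ⟨e, he, fun z h1 h2 => ?_⟩
  rw [hz z h1 h2.le]
  have : 1 < (2 : ℝ) ^ k := one_lt_zpow₀ (by norm_num) hk
  nlinarith

theorem T7b_up {g : ℝ ≃o ℝ} {y : ℝ} {k : ℤ} (hk : k < 0) (h : gL g y k) : Up g y := by
  obtain ⟨e, he, hz⟩ := h
  refine ⟨e, he, fun z h1 h2 => ?_⟩
  rw [hz z h1 h2.le]
  have : (2 : ℝ) ^ k < 1 := zpow_lt_one_of_neg₀ (by norm_num) hk
  nlinarith

theorem T7b_part2 (hT5s : T5s_stmt) (hG1 : G1_stmt) (hG2 : G2_stmt) (hG3 : G3_stmt) (hG4 : G4_stmt)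
    (P : F → Prop) (hP : Cone P) (hC : Conr P) (hA : ∀ a b, Dyi a b → ¬ Aty P a b) :
    ∃ ε : DD → Bool, ∀ g ∈ commutator F, P g ↔ Pos ε g.1 := by
  classical
  have hex : ∀ y : DD, ∃ u : F, ∃ a' : ℝ, IsDyadic a' ∧ 0 < a' ∧ a' < y.1 ∧ u ∈ FI a' y.1 ∧
      gL u.1 y.1 1 := by
    intro y
    obtain ⟨a', ha', h1, h2, u, hu, hu1⟩ := (hG4 0 y.1 le_rfl y.2.2.1 y.2.2.2).1 y.2.1
    exact ⟨u, a', ha', h1, h2, hu, hu1⟩
  choose u a hu using hex
  refine ⟨fun y => decide (¬ P (u y)), ?_⟩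
  intro g hg
  by_cases hg1 : g = 1
  · subst hg1
    constructor
    · intro h
      exact absurd h hP.ne
    · intro h
      exact absurd h (not_pos_one _)
  obtain ⟨h0, h1⟩ := T7b_comm hG1 hG2 hg
  obtain ⟨a', b', hab', hgm⟩ := T7b_supp hG3 h0 h1
  obtain ⟨y, hyd, hy, htop⟩ := exists_top g.2 (fun h => hg1 (Subtype.ext h))
  set Y : DD := ⟨y, hyd, hy⟩ with hY
  have hfix : g.1 y = y := htop.1 y le_rfl
  -- y ≤ b'
  have hyb : y ≤ b' := by
    by_contra hcon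
    push Not at hcon
    rcases htop.2 with ⟨e, he, hz⟩ | ⟨e, he, hz⟩
    · have h3 := hz ((max e b' + y) / 2) (by linarith [le_max_left e b', max_lt he hcon])
        (by linarith [max_lt he hcon])
      rw [hgm _ (fun h4 => absurd h4.2 (not_lt.2 (by linarith [le_max_right e b', max_lt he hcon])))] at h3
      exact lt_irrefl _ h3
    · have h3 := hz ((max e b' + y) / 2) (by linarith [le_max_left e b', max_lt he hcon])
        (by linarith [max_lt he hcon])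
      rw [hgm _ (fun h4 => absurd h4.2 (not_lt.2 (by linarith [le_max_right e b', max_lt he hcon])))] at h3
      exact lt_irrefl _ h3
  have hy1 : y < 1 := lt_of_le_of_lt hyb hab'.2.2.2.2
  obtain ⟨hua, ha0, hay, hum, hu1⟩ := hu Y
  set A : ℝ := min a' (a Y) with hAdef
  have hAd : IsDyadic A := by
    rcases min_choice a' (a Y) with h | h
    · rw [hAdef, h]; exact hab'.1
    · rw [hAdef, h]; exact hua
  have hA0 : 0 < A := lt_min hab'.2.2.1 ha0
  have hAy : A < y := lt_of_le_of_lt (min_le_right _ _) hay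
  have hDyi : Dyi A y := ⟨hAd, hyd, hA0, hAy, hy1⟩
  have hgA : g ∈ FI A y := by
    intro x hx
    by_cases hx1 : y ≤ x
    · exact htop.1 x hx1
    · push Not at hx1
      have hxA : x ≤ A := by
        by_contra hcon
        push Not at hcon
        exact hx ⟨hcon, hx1⟩
      exact hgm x (fun h => absurd h.1 (not_lt.2 (hxA.trans (min_le_left _ _))))
  have huA : u Y ∈ FI A y := FI_mono (min_le_right _ _) le_rfl hum
  obtain ⟨k, hk, -⟩ := (hG1 g y hfix).1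
  have hpos := pos_iff (ε := fun y => decide (¬ P (u y))) (y := Y) htop
  rw [hpos]
  simp only [decide_eq_true_eq, decide_eq_false_iff_not, not_not]
  rcases lt_trichotomy k 0 with hk0 | hk0 | hk0
  · have hup : Up g.1 y := T7b_up hk0 hk
    have hnd : ¬ Down g.1 y := fun h => not_up_down hup h
    have hinv : gL (g⁻¹ : F).1 y (-k) := (hG2 g.1 g.1 y k 0).2.1 hk
    have h5 := hT5s P hP hC A y g⁻¹ (u Y) (-k) 1 hDyi.dy ((FI A y).inv_mem hgA) huA (by omega) one_pos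
      (hA A y hDyi) hinv hu1
    constructor
    · intro hPg
      exact Or.inl ⟨hup, fun hPu => hP.anti g hPg (h5.2 hPu)⟩
    · rintro (⟨-, h6⟩ | ⟨h6, -⟩)
      · rcases hP.tri g hg1 with h7 | h7
        · exact h7
        · exact absurd (h5.1 h7) h6
      · exact absurd h6 hnd
  · exfalso
    subst hk0
    obtain ⟨e, he, hz⟩ := hk
    rcases htop.2 with ⟨e', he', hz'⟩ | ⟨e', he', hz'⟩
    · have h3 := hz' ((max e e' + y) / 2) (by linarith [le_max_right e e', max_lt he he'])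
        (by linarith [max_lt he he'])
      rw [hz _ (by linarith [le_max_left e e', max_lt he he']) (by linarith [max_lt he he']), zpow_zero,
        one_mul] at h3
      linarith
    · have h3 := hz' ((max e e' + y) / 2) (by linarith [le_max_right e e', max_lt he he'])
        (by linarith [max_lt he he'])
      rw [hz _ (by linarith [le_max_left e e', max_lt he he']) (by linarith [max_lt he he']), zpow_zero,
        one_mul] at h3
      linarith
  · have hdn : Down g.1 y := T7b_down hk0 hk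
    have hnu : ¬ Up g.1 y := fun h => not_up_down h hdn
    have h5 := hT5s P hP hC A y g (u Y) k 1 hDyi.dy hgA huA hk0 one_pos (hA A y hDyi) hk hu1
    constructor
    · intro hPg
      exact Or.inr ⟨hdn, h5.1 hPg⟩
    · rintro (⟨h6, -⟩ | ⟨-, h6⟩)
      · exact absurd h6 hnu
      · exact h5.2 h6

theorem T7b (hT5 : T5_stmt) (hT5s : T5s_stmt) (hT6 : T6_stmt) (hT2 : T2_stmt) (hCT7 : CT7_stmt)
    (hG1 : G1_stmt) (hG2 : G2_stmt) (hG3 : G3_stmt) (hG4 : G4_stmt) (hGE7 : GE7_stmt) : T7b_stmt := by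
  intro P hP hC hA hB
  exact ⟨T7b_part1 hT5 hT6 hT2 hCT7 hG1 hG2 hG3 hGE7 P hP hC hA hB,
    T7b_part2 hT5s hG1 hG2 hG3 hG4 P hP hC hA⟩

end Pool.Agent.IRO
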